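import Mathlib

namespace Pool.Agent.Results.MP_af8792_co.Counter

open Finset

variable {m n : ℕ} (E₁ : Finset (Fin m × Fin n)) (E₂ : Finset ((Fin m × Fin n) × (Fin m × Fin n)))

/-- A cell is occupied by a 1-edge or by a 2-edge. -/
def Occ (c : Fin m × Fin n) : Prop := c ∈ E₁ ∨ ∃ e ∈ E₂, c = e.1 ∨ c = e.2

/-- A configuration: 2-edges use two rows and two columns, no cell lies in two edges. -/
def Config : Prop :=
  (∀ e ∈ E₂, e.1.1 ≠ e.2.1 ∧ e.1.2 ≠ e.2.2) ∧ (∀ e ∈ E₂, e.1 ∉ E₁ ∧ e.2 ∉ E₁) ∧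
    ∀ e ∈ E₂, ∀ f ∈ E₂, e ≠ f → e.1 ≠ f.1 ∧ e.1 ≠ f.2 ∧ e.2 ≠ f.1 ∧ e.2 ≠ f.2

/-- The configuration contains a generalized four-cycle. -/
def Cyc : Prop :=
  (∃ i k j l, i ≠ k ∧ j ≠ l ∧ (i, j) ∈ E₁ ∧ (i, l) ∈ E₁ ∧ (k, j) ∈ E₁ ∧ (k, l) ∈ E₁) ∨
  (∃ i j k l, ((i, j), (k, l)) ∈ E₂ ∧ Occ E₁ E₂ (i, l) ∧ Occ E₁ E₂ (k, j)) ∨
  ∃ i j p q k l, ((i, j), (p, q)) ∈ E₂ ∧ [(k, l), (k, j), (k, q), (i, l), (p, l)].Nodup ∧
    ∀ c ∈ [(k, l), (k, j), (k, q), (i, l), (p, l)], Occ E₁ E₂ c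

/-- The double Zarankiewicz number. -/
noncomputable def z₂ (m n : ℕ) : ℕ :=
  sSup {s | ∃ (E₁ : Finset (Fin m × Fin n)) (E₂ : Finset ((Fin m × Fin n) × (Fin m × Fin n))),
    Config E₁ E₂ ∧ ¬ Cyc E₁ E₂ ∧ E₁.card + E₂.card = s}

theorem low (m n : ℕ) : m / 2 * (n / 2) ≤ z₂ m n := by
  let g : Fin (m / 2) × Fin (n / 2) → (Fin m × Fin n) × (Fin m × Fin n) := fun p =>
    ((⟨p.1, by omega⟩, ⟨p.2, by omega⟩), (⟨m / 2 + p.1, by omega⟩, ⟨n / 2 + p.2, by omega⟩))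
  have o : ∀ c, Occ ∅ (univ.image g) c → (c.1.val < m / 2 ↔ c.2.val < n / 2) := by
    rintro c (h | ⟨e, he, h⟩)
    · simp at h
    obtain ⟨p, -, rfl⟩ := mem_image.1 he
    rcases h with rfl | rfl <;> simp [g]
  refine le_csSup ⟨Fintype.card (Fin m × Fin n) + Fintype.card ((Fin m × Fin n) × (Fin m × Fin n)),
    ?_⟩ ⟨∅, univ.image g, ⟨?_, by simp, ?_⟩, ?_, ?_⟩
  · rintro _ ⟨A, B, -, -, rfl⟩
    exact add_le_add (card_le_univ _) (card_le_univ _)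
  · simp only [forall_mem_image, g, ne_eq, Fin.ext_iff]
    intro p _; omega
  · simp only [forall_mem_image, g, ne_eq, Fin.ext_iff, Prod.ext_iff]
    intro p _ q _; omega
  · rintro (⟨i, k, j, l, -, -, h, -⟩ | ⟨i, j, k, l, h, a, -⟩ | ⟨i, j, p, q, k, l, h, -, a⟩)
    · simp at h
    · obtain ⟨x, -, e⟩ := mem_image.1 h
      have := o _ a
      simp only [g, Prod.ext_iff, Fin.ext_iff] at e this
      omega
    · obtain ⟨x, -, e⟩ := mem_image.1 h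
      have b := o _ (a (k, j) (by simp))
      have c := o _ (a (k, q) (by simp))
      simp only [g, Prod.ext_iff, Fin.ext_iff] at e b c
      omega
  · rw [card_image_of_injective _ fun p q e => by
      simp only [g, Prod.ext_iff, Fin.ext_iff] at e ⊢; omega]
    simp

theorem result : (∀ m n : ℕ, m / 2 * (n / 2) ≤ z₂ m n) ∧
    ¬ ∃ C : ℝ, ∀ m n : ℕ, 2 ≤ m → 2 ≤ n → (z₂ m n : ℝ) ≤ C * (m * √n + n) := by
  refine ⟨low, fun ⟨C, h⟩ => ?_⟩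
  obtain ⟨a, ha⟩ := exists_nat_gt (max (8 * C) 1)
  have a1 : (1 : ℝ) < a := (le_max_right _ _).trans_lt ha
  have a2 : 8 * C < a := (le_max_left _ _).trans_lt ha
  have a3 : 1 < a := by exact_mod_cast a1
  have h1 := h (2 * a) (4 * a ^ 2) (by omega) (by nlinarith)
  have h2 := low (2 * a) (4 * a ^ 2)
  rw [show 2 * a / 2 = a by omega, show 4 * a ^ 2 / 2 = 2 * a ^ 2 by omega] at h2
  have h3 : (a * (2 * a ^ 2) : ℝ) ≤ z₂ (2 * a) (4 * a ^ 2) := by exact_mod_cast h2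
  rw [show ((4 * a ^ 2 : ℕ) : ℝ) = (2 * a) ^ 2 by push_cast; ring, Real.sqrt_sq (by positivity)] at h1
  push_cast at h1
  nlinarith [mul_pos (sub_pos.2 a2) (show (0 : ℝ) < a ^ 2 by positivity)]

end Pool.Agent.Results.MP_af8792_co.Counter
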